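import Mathlib
import Pool.Agent.Y698.TF.Fi
import Pool.Agent.Y698.TF.Vo
import Pool.Agent.H805R2.Sanity

/-!
# The transfinite diameter of sublevel sets in the Cegrell class `𝓕(Ω)`

Let `Ω` be a bounded hyperconvex domain contained in a closed polydisc of radius `R`, and
`φ ∈ 𝓕(Ω)` with total Monge-Ampere mass `λⁿ`, `λ > 0`. Then for every `s > 0` the transfinite diameter
(Leja, Zaharjuta) of every compact subset of `{φ < -s}` is at most `R exp (-s / λ)`, with the constant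
one. The volume of a set is at most a constant, which depends on `n` only, times the power `2 n` of the
transfinite diameter; so this contains the answer to Q1 (`SharpVolumeDecay`), in the form
`Vol {φ < -s} ≤ c_n R^{2n} exp (-2 n s / λ) ≤ c_n δ_Ω^{2n} exp (-2 n s / λ)`.

All notions entering the statement are defined in this file, over Mathlib alone.
-/

set_option autoImplicit false

open MeasureTheory Metric Set Filter Topology
open scoped ContDiff ComplexOrder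

namespace Pool.Agent.Results.MP_92512e_an.TransfiniteDiameter

/-- `ℂⁿ` with its Euclidean norm; `volume` on it is Lebesgue measure on `ℝ²ⁿ`. -/
abbrev Cn (n : ℕ) : Type := EuclideanSpace ℂ (Fin n)

/-- The `j`-th unit vector of `ℂⁿ`. -/
noncomputable def bas {n : ℕ} (j : Fin n) : Cn n := EuclideanSpace.single j (1 : ℂ)

/-- The Wirtinger derivative `∂f/∂z_j = (∂f/∂x_j - i ∂f/∂y_j) / 2`. -/
noncomputable def wd {n : ℕ} (j : Fin n) (f : Cn n → ℂ) (z : Cn n) : ℂ :=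
  (fderiv ℝ f z (bas j) - Complex.I * fderiv ℝ f z (Complex.I • bas j)) / 2

/-- The Wirtinger derivative `∂f/∂z̄_k = (∂f/∂x_k + i ∂f/∂y_k) / 2`. -/
noncomputable def wdb {n : ℕ} (k : Fin n) (f : Cn n → ℂ) (z : Cn n) : ℂ :=
  (fderiv ℝ f z (bas k) + Complex.I * fderiv ℝ f z (Complex.I • bas k)) / 2

/-- The complex Hessian `(∂²u/∂z_j∂z̄_k)` of a real function. -/
noncomputable def hess {n : ℕ} (u : Cn n → ℝ) (z : Cn n) : Matrix (Fin n) (Fin n) ℂ :=
  Matrix.of fun j k => wd j (wdb k fun w => (u w : ℂ)) z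

/-- Plurisubharmonic functions on an open set `Ω` of `ℂⁿ`, with values in `[-∞, ∞)`: upper
semicontinuous, and for every closed complex disc `{a + ζ b : |ζ| ≤ 1} ⊆ Ω` the value at the centre
`a` is at most the mean over the boundary circle. The mean of an upper semicontinuous function is
the infimum of the means of its continuous majorants, which is how it is expressed here. -/
def PSH {n : ℕ} (Ω : Set (Cn n)) (u : Cn n → EReal) : Prop :=
  UpperSemicontinuousOn u Ω ∧ (∀ z ∈ Ω, u z < ⊤) ∧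
  ∀ a b : Cn n, (∀ ζ : ℂ, ‖ζ‖ ≤ 1 → a + ζ • b ∈ Ω) →
    ∀ φ : ℂ → ℝ, Continuous φ →
      (∀ ζ : ℂ, ‖ζ‖ = 1 → u (a + ζ • b) ≤ ((φ ζ : ℝ) : EReal)) →
        u a ≤ ((Real.circleAverage φ 0 1 : ℝ) : EReal)

/-- `Ω` is hyperconvex: there is a negative plurisubharmonic function `ρ` on `Ω` such that every
sublevel set `{ρ < c}`, `c < 0`, is relatively compact in `Ω`. -/
def Hyperconvex {n : ℕ} (Ω : Set (Cn n)) : Prop :=
  ∃ ρ : Cn n → EReal, PSH Ω ρ ∧ (∀ z ∈ Ω, ρ z < 0) ∧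
    ∀ c : ℝ, c < 0 → ∃ K : Set (Cn n), IsCompact K ∧ K ⊆ Ω ∧ ∀ z ∈ Ω, ρ z < (c : EReal) → z ∈ K

/-- The density of `(dd^c v)ⁿ` with respect to Lebesgue measure for a `C²` function `v`, where
`dd^c = (i/π)∂∂̄`: it is `n! (2/π)ⁿ det(∂²v/∂z_j∂z̄_k)`. -/
noncomputable def maDensity {n : ℕ} (v : Cn n → ℝ) (z : Cn n) : ℝ :=
  (n.factorial : ℝ) * (2 / Real.pi) ^ n * (hess v z).det.re

/-- `μ` is, on `Ω`, the Monge-Ampere measure `(dd^c u)ⁿ` of the locally bounded plurisubharmonic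
function `u` in the sense of Bedford and Taylor: it is finite on compact subsets of `Ω`, and on every
open `U` relatively compact in `Ω` the function `u` is the pointwise limit of a decreasing sequence of
smooth plurisubharmonic functions `v_k` whose Monge-Ampere measures `maDensity (v_k) dVol` converge
weakly to `μ` on `U`. -/
def IsMongeAmpere {n : ℕ} (Ω : Set (Cn n)) (u : Cn n → ℝ) (μ : Measure (Cn n)) : Prop :=
  (∀ K : Set (Cn n), IsCompact K → K ⊆ Ω → μ K < ⊤) ∧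
  ∀ U : Set (Cn n), IsOpen U → IsCompact (closure U) → closure U ⊆ Ω →
    ∃ v : ℕ → Cn n → ℝ,
      (∀ k, ContDiffOn ℝ ∞ (v k) U) ∧
      (∀ k, ∀ z ∈ U, (hess (v k) z).PosSemidef) ∧
      (∀ z ∈ U, Antitone fun k => v k z) ∧
      (∀ z ∈ U, Tendsto (fun k => v k z) atTop (𝓝 (u z))) ∧
      ∀ χ : Cn n → ℝ, Continuous χ → HasCompactSupport χ → tsupport χ ⊆ U →
        Tendsto (fun k => ∫ z, χ z * maDensity (v k) z) atTop (𝓝 (∫ z, χ z ∂μ))

/-- `u ∈ 𝓔₀(Ω)` with `(dd^c u)ⁿ = ν`: `u` is a bounded plurisubharmonic function, `u ≤ 0`,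
`u(z) → 0` as `z → ∂Ω`, and the total mass of `(dd^c u)ⁿ` is finite. -/
def IsE0 {n : ℕ} (Ω : Set (Cn n)) (u : Cn n → ℝ) (ν : Measure (Cn n)) : Prop :=
  PSH Ω (fun z => ((u z : ℝ) : EReal)) ∧
  (∃ M : ℝ, ∀ z ∈ Ω, -M ≤ u z) ∧ (∀ z ∈ Ω, u z ≤ 0) ∧
  (∀ w ∈ frontier Ω, Tendsto u (𝓝[Ω] w) (𝓝 0)) ∧
  IsMongeAmpere Ω u ν ∧ ν Ω < ⊤

/-- `φ` belongs to the Cegrell class `𝓕(Ω)` with `(dd^c φ)ⁿ = μ`: `φ` is plurisubharmonic, and there
is a sequence `u_j ∈ 𝓔₀(Ω)` decreasing pointwise to `φ`, with total masses bounded, such that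
`(dd^c u_j)ⁿ` converges weakly to `μ` on `Ω`. -/
def IsCegrellF {n : ℕ} (Ω : Set (Cn n)) (φ : Cn n → EReal) (μ : Measure (Cn n)) : Prop :=
  PSH Ω φ ∧ μ Ω < ⊤ ∧
  ∃ (u : ℕ → Cn n → ℝ) (ν : ℕ → Measure (Cn n)),
    (∀ j, IsE0 Ω (u j) (ν j)) ∧
    (∀ z ∈ Ω, Antitone fun j => u j z) ∧
    (∀ z ∈ Ω, Tendsto (fun j => ((u j z : ℝ) : EReal)) atTop (𝓝 (φ z))) ∧
    (∃ M : ℝ, ∀ j, ν j Ω ≤ ENNReal.ofReal M) ∧
    ∀ χ : Cn n → ℝ, Continuous χ → HasCompactSupport χ → tsupport χ ⊆ Ω →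
      Tendsto (fun j => ∫ z, χ z ∂(ν j)) atTop (𝓝 (∫ z, χ z ∂μ))

/-- Sanity check of the definitions: on the unit ball `B` of `ℂⁿ`, the function `|z|² - 1` lies in
`𝓕(B)` with Monge-Ampere measure `n! (2/π)ⁿ dVol`, whose total mass is `2ⁿ` (so `λ = 2`). -/
theorem definitions_check {n : ℕ} (hn : 1 ≤ n) :
    IsOpen (ball (0 : Cn n) 1) ∧ IsConnected (ball (0 : Cn n) 1) ∧
    Bornology.IsBounded (ball (0 : Cn n) 1) ∧ Hyperconvex (ball (0 : Cn n) 1) ∧
    IsCegrellF (ball (0 : Cn n) 1) (fun z => ((‖z‖ ^ 2 - 1 : ℝ) : EReal))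
      (ENNReal.ofReal ((n.factorial : ℝ) * (2 / Real.pi) ^ n) • volume) ∧
    (ENNReal.ofReal ((n.factorial : ℝ) * (2 / Real.pi) ^ n) • (volume : Measure (Cn n))) (ball 0 1) =
      ENNReal.ofReal (2 ^ n) :=
  Pool.Agent.H805R2.example_F hn

/-- The exponents of the monomials of degree `≤ d` in `n` variables. -/
abbrev Mon (n d : ℕ) : Type := {α : Fin n → Fin (d + 1) // ∑ i, (α i : ℕ) ≤ d}

/-- The Vandermonde determinant: the determinant of the values of the monomials of degree `≤ d` at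
the points `x_β`, as many points as monomials. -/
noncomputable def V (n d : ℕ) (x : Mon n d → Cn n) : ℂ :=
  (Matrix.of fun β α : Mon n d => ∏ i, x β i ^ (α.1 i : ℕ)).det

/-- The sum of the degrees of the monomials of degree `≤ d`. -/
def L (n d : ℕ) : ℕ := ∑ α : Mon n d, ∑ i, (α.1 i : ℕ)

/-- The transfinite diameter `limsup_d (max |V|)^{1 / L(n, d)}` of `K`, where the maximum is over all
choices of the points in `K`, is at most `r`. -/
def TransfiniteDiameterLE {n : ℕ} (K : Set (Cn n)) (r : ℝ) : Prop :=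
  ∀ q : ℝ, r < q → ∀ᶠ d : ℕ in atTop, ∀ x : Mon n d → Cn n, (∀ β, x β ∈ K) → ‖V n d x‖ ≤ q ^ L n d

/-- **The transfinite diameter and the volume of sublevel sets.** For each `n ≥ 1` there is a constant
`c`, depending only on `n`, such that the volume of a set of transfinite diameter at most `r` is at most
`c r^{2n}`, and such that for every bounded hyperconvex domain `Ω` in `ℂⁿ`, every
`φ ∈ 𝓕(Ω)` whose Monge-Ampere measure `μ` has total mass `λⁿ` with `λ > 0`, and every `s > 0`: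
if `Ω` lies in the closed polydisc with centre `a` and radius `R`, then every compact subset of
`{φ < -s}` has transfinite diameter at most `R exp(-s/λ)`, and `Vol {φ < -s} ≤ c R^{2n} exp(-2ns/λ)`;
and `Vol {φ < -s} ≤ c diam(Ω)^{2n} exp(-2ns/λ)`. -/
theorem result (n : ℕ) (hn : 1 ≤ n) : ∃ c : ℝ, 0 < c ∧
    (∀ K : Set (Cn n), MeasurableSet K → volume K ≠ ⊤ → ∀ r : ℝ, 0 ≤ r →
      TransfiniteDiameterLE K r → volume K ≤ ENNReal.ofReal (c * r ^ (2 * n))) ∧
    ∀ Ω : Set (Cn n), IsOpen Ω → IsConnected Ω → Bornology.IsBounded Ω → Hyperconvex Ω →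
    ∀ (φ : Cn n → EReal) (μ : Measure (Cn n)), IsCegrellF Ω φ μ →
    ∀ lam : ℝ, 0 < lam → μ Ω = ENNReal.ofReal (lam ^ n) → ∀ s : ℝ, 0 < s →
    (∀ (R : ℝ) (a : Cn n), 0 < R → (∀ z ∈ Ω, ∀ j, ‖z j - a j‖ ≤ R) →
      (∀ K : Set (Cn n), IsCompact K → K ⊆ {z | z ∈ Ω ∧ φ z < ((-s : ℝ) : EReal)} →
        TransfiniteDiameterLE K (R * Real.exp (-(s / lam)))) ∧
      volume {z | z ∈ Ω ∧ φ z < ((-s : ℝ) : EReal)} ≤
        ENNReal.ofReal (c * R ^ (2 * n) * Real.exp (-(2 * n * s / lam)))) ∧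
    volume {z | z ∈ Ω ∧ φ z < ((-s : ℝ) : EReal)} ≤
      ENNReal.ofReal (c * Metric.diam Ω ^ (2 * n) * Real.exp (-(2 * n * s / lam))) := by
  obtain ⟨c1, hc1, H1⟩ := Pool.Agent.Y698.TF.vol_bound n
  obtain ⟨c2, hc2, H2⟩ := Pool.Agent.H805R2.main_theorem n hn
  obtain ⟨c3, hc3, H3⟩ := Pool.Agent.Y698.TF.vol_le_trans n
  refine ⟨c1 + c2 + c3, by positivity, ?_, ?_⟩
  · intro K hK hfin r hr hT
    refine (H3 K hK hfin r hr hT).trans (ENNReal.ofReal_le_ofReal ?_)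
    gcongr
    linarith
  intro Ω h1 h2 h3 _ φ μ hF lam hlam hμ s hs
  refine ⟨fun R a hR ha => ⟨?_, ?_⟩, ?_⟩
  · intro K hK hKs q hq
    exact Pool.Agent.Y698.TF.trans_bound n Ω h1 h2 h3 R hR a ha φ μ hF lam hlam hμ s hs K hK hKs q hq
  · refine (H1 Ω h1 h2 h3 R hR a ha φ μ hF lam hlam hμ s hs).trans (ENNReal.ofReal_le_ofReal ?_)
    gcongr
    linarith
  · refine (H2 Ω h1 h2 h3 φ μ hF lam hlam hμ s hs).trans (ENNReal.ofReal_le_ofReal ?_)
    gcongr
    linarith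

end Pool.Agent.Results.MP_92512e_an.TransfiniteDiameter
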